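import Pool.Agent.Run7.h297.CoreC

set_option autoImplicit false

namespace Pool.Agent.Results.MP_5e4520_nt.LogRate

/-- For almost every pair (x1,x2) and every shift (g1,g2), the lower limit of
q log q (log log q)^(-20) ||q x1 - g1|| ||q x2 - g2|| is zero. -/
theorem result :
    ∀ᵐ x : ℝ × ℝ ∂MeasureTheory.volume, ∀ γ : ℝ × ℝ, ∀ η : ℝ, 0 < η → ∀ N : ℕ, ∃ q : ℕ, N ≤ q ∧
      (q : ℝ) * (Real.log (q : ℝ) / (Real.log (Real.log (q : ℝ))) ^ 20)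
        * |(q : ℝ) * x.1 - γ.1 - ((round ((q : ℝ) * x.1 - γ.1) : ℤ) : ℝ)|
        * |(q : ℝ) * x.2 - γ.2 - ((round ((q : ℝ) * x.2 - γ.2) : ℤ) : ℝ)| < η :=
  Run7.h297.ae_of_core (ψ := Run7.h297.psiB)
    (fun η hη N c hc E hE hv g hg1 hg2 => Run7.h297.core_baseB η hη N c hc E hE hv g hg1 hg2)

end Pool.Agent.Results.MP_5e4520_nt.LogRate
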